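import Mathlib

/-!
Scalar comparison theory for the equation `φ' = - sin φ + f(t)`.
-/

set_option autoImplicit false

open Filter Topology Set

namespace Pool.Agent.MPe3ae05

noncomputable section

/-- solutions (on the whole line) of `φ' = - sin φ + f(t)` -/
def Sol (f φ : ℝ → ℝ) : Prop := ∀ t, HasDerivAt φ (-Real.sin (φ t) + f t) t

lemma Sol.continuous {f φ : ℝ → ℝ} (h : Sol f φ) : Continuous φ :=
  continuous_iff_continuousAt.mpr (fun t => (h t).continuousAt)

/-- divided difference of the sine -/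
def qq (x y : ℝ) : ℝ := Real.cos ((x + y) / 2) * Real.sinc ((y - x) / 2)

lemma sin_sub_sin_eq (x y : ℝ) : Real.sin y - Real.sin x = qq x y * (y - x) := by
  unfold qq
  rw [Real.sin_sub_sin]
  by_cases h : (y - x) / 2 = 0
  · have h2 : y - x = 0 := by linarith
    rw [h, h2]
    simp
  · rw [Real.sinc_of_ne_zero h]
    have h2 : y - x ≠ 0 := fun h' => h (by rw [h']; simp)
    field_simp
    rw [add_comm x y]

lemma abs_qq_le (x y : ℝ) : |qq x y| ≤ 1 := by
  unfold qq
  rw [abs_mul]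
  have h1 := Real.abs_cos_le_one ((x + y) / 2)
  have h2 := Real.abs_sinc_le_one ((y - x) / 2)
  have h3 := abs_nonneg (Real.cos ((x + y) / 2))
  have h4 := abs_nonneg (Real.sinc ((y - x) / 2))
  nlinarith

lemma continuous_qq {φ ψ : ℝ → ℝ} (hφ : Continuous φ) (hψ : Continuous ψ) :
    Continuous (fun t => qq (φ t) (ψ t)) := by
  unfold qq
  apply Continuous.mul
  · exact Real.continuous_cos.comp (by fun_prop)
  · exact Real.continuous_sinc.comp (by fun_prop)

/-- integrating factor -/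
def QQ (φ ψ : ℝ → ℝ) (t : ℝ) : ℝ := ∫ s in (0 : ℝ)..t, qq (φ s) (ψ s)

lemma hasDerivAt_QQ {φ ψ : ℝ → ℝ} (hφ : Continuous φ) (hψ : Continuous ψ) (t : ℝ) :
    HasDerivAt (QQ φ ψ) (qq (φ t) (ψ t)) t := by
  have hc := continuous_qq hφ hψ
  exact intervalIntegral.integral_hasDerivAt_right (hc.intervalIntegrable _ _)
    (hc.stronglyMeasurableAtFilter _ _) hc.continuousAt

/-- the weighted difference of two solutions -/
def ww (φ ψ : ℝ → ℝ) (t : ℝ) : ℝ := (ψ t - φ t) * Real.exp (QQ φ ψ t)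

lemma hasDerivAt_ww {f g φ ψ : ℝ → ℝ} (hφ : Sol f φ) (hψ : Sol g ψ) (t : ℝ) :
    HasDerivAt (ww φ ψ) ((g t - f t) * Real.exp (QQ φ ψ t)) t := by
  have h1 := ((hψ t).sub (hφ t)).mul (hasDerivAt_QQ hφ.continuous hψ.continuous t).exp
  have e : (-Real.sin (ψ t) + g t - (-Real.sin (φ t) + f t)) * Real.exp (QQ φ ψ t) +
      (ψ - φ) t * (Real.exp (QQ φ ψ t) * qq (φ t) (ψ t)) =
      (g t - f t) * Real.exp (QQ φ ψ t) := by
    have h2 := sin_sub_sin_eq (φ t) (ψ t)
    have h3 : (ψ - φ) t = ψ t - φ t := rfl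
    rw [h3]
    have h4 : Real.sin (ψ t) = Real.sin (φ t) + qq (φ t) (ψ t) * (ψ t - φ t) := by linarith
    rw [h4]
    ring
  rw [e] at h1
  exact h1

lemma comp_le {f g φ ψ : ℝ → ℝ} (hφ : Sol f φ) (hψ : Sol g ψ) {a b : ℝ} (hab : a ≤ b)
    (hfg : ∀ t ∈ Icc a b, f t ≤ g t) (h0 : φ a ≤ ψ a) : φ b ≤ ψ b := by
  have hmono : MonotoneOn (ww φ ψ) (Icc a b) := by
    apply monotoneOn_of_deriv_nonneg (convex_Icc a b)
    · exact fun t _ => (hasDerivAt_ww hφ hψ t).continuousAt.continuousWithinAt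
    · exact fun t _ => (hasDerivAt_ww hφ hψ t).differentiableAt.differentiableWithinAt
    · intro t ht
      rw [(hasDerivAt_ww hφ hψ t).deriv]
      have := hfg t (interior_subset ht)
      exact mul_nonneg (by linarith) (Real.exp_pos _).le
  have h1 := hmono (left_mem_Icc.mpr hab) (right_mem_Icc.mpr hab) hab
  have h2 : 0 ≤ ww φ ψ a := mul_nonneg (by linarith) (Real.exp_pos _).le
  have h3 : 0 ≤ ww φ ψ b := h2.trans h1
  unfold ww at h3
  have h4 : 0 ≤ ψ b - φ b := nonneg_of_mul_nonneg_left h3 (Real.exp_pos _)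
  linarith

/-- for the same forcing, the order of two solutions is preserved for all times -/
lemma order_preserved {f φ ψ : ℝ → ℝ} (hφ : Sol f φ) (hψ : Sol f ψ) {a : ℝ}
    (h0 : φ a ≤ ψ a) (b : ℝ) : φ b ≤ ψ b := by
  have hconst : ww φ ψ b = ww φ ψ a := by
    apply is_const_of_deriv_eq_zero
    · exact fun t => (hasDerivAt_ww hφ hψ t).differentiableAt
    · intro t
      rw [(hasDerivAt_ww hφ hψ t).deriv]
      simp
  have h2 : 0 ≤ ww φ ψ a := mul_nonneg (by linarith) (Real.exp_pos _).le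
  rw [← hconst] at h2
  have h4 : 0 ≤ ψ b - φ b := nonneg_of_mul_nonneg_left h2 (Real.exp_pos _)
  linarith

lemma unique {f φ ψ : ℝ → ℝ} (hφ : Sol f φ) (hψ : Sol f ψ) {a : ℝ}
    (h0 : φ a = ψ a) : φ = ψ := by
  funext b
  exact le_antisymm (order_preserved hφ hψ h0.le b) (order_preserved hψ hφ h0.ge b)

/-- quantitative dependence on the forcing -/
lemma diff_le {f g φ ψ : ℝ → ℝ} (hφ : Sol f φ) (hψ : Sol g ψ) {a b η : ℝ} (hab : a ≤ b)
    (hη : 0 ≤ η) (hfg : ∀ t ∈ Icc a b, g t ≤ f t + η) (h0 : ψ a ≤ φ a) :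
    ψ b ≤ φ b + η * ((b - a) * Real.exp (b - a)) * Real.exp (b - a) := by
  have hQ : ∀ t ∈ Icc a b, |QQ φ ψ t - QQ φ ψ a| ≤ t - a := by
    intro t ht
    unfold QQ
    have hc := continuous_qq hφ.continuous hψ.continuous
    rw [intervalIntegral.integral_interval_sub_left (hc.intervalIntegrable _ _)
      (hc.intervalIntegrable _ _)]
    have := intervalIntegral.norm_integral_le_of_norm_le_const (a := a) (b := t) (C := 1)
      (f := fun s => qq (φ s) (ψ s)) (fun s _ => by
        rw [Real.norm_eq_abs]; exact abs_qq_le _ _)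
    rw [Real.norm_eq_abs, one_mul, abs_of_nonneg (show 0 ≤ t - a by linarith [ht.1])] at this
    exact this
  have hanti : AntitoneOn (fun t => ww φ ψ t -
      η * Real.exp (QQ φ ψ a + (b - a)) * (t - a)) (Icc a b) := by
    apply antitoneOn_of_deriv_nonpos (convex_Icc a b)
    · intro t _
      apply ContinuousAt.continuousWithinAt
      exact ((hasDerivAt_ww hφ hψ t).continuousAt).sub (by fun_prop)
    · intro t _
      apply DifferentiableAt.differentiableWithinAt
      exact ((hasDerivAt_ww hφ hψ t).differentiableAt).sub (by fun_prop)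
    · intro t ht
      have ht' := interior_subset ht
      have hd : HasDerivAt (fun t => ww φ ψ t -
        η * Real.exp (QQ φ ψ a + (b - a)) * (t - a))
        ((g t - f t) * Real.exp (QQ φ ψ t) - η * Real.exp (QQ φ ψ a + (b - a)) * 1) t := by
        apply (hasDerivAt_ww hφ hψ t).sub
        apply HasDerivAt.const_mul
        exact (hasDerivAt_id t).sub_const a
      rw [hd.deriv, mul_one]
      have h1 := hfg t ht'
      have h2 := (abs_le.mp (hQ t ht')).2
      have h3 : Real.exp (QQ φ ψ t) ≤ Real.exp (QQ φ ψ a + (b - a)) := by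
        apply Real.exp_le_exp.mpr
        linarith [ht'.2]
      have h4 := Real.exp_pos (QQ φ ψ t)
      have h5 : (g t - f t) * Real.exp (QQ φ ψ t) ≤ η * Real.exp (QQ φ ψ t) :=
        mul_le_mul_of_nonneg_right (by linarith) h4.le
      have h6 : η * Real.exp (QQ φ ψ t) ≤ η * Real.exp (QQ φ ψ a + (b - a)) :=
        mul_le_mul_of_nonneg_left h3 hη
      linarith
  have h1 := hanti (left_mem_Icc.mpr hab) (right_mem_Icc.mpr hab) hab
  simp only [sub_self, mul_zero, sub_zero] at h1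
  have h2 : ww φ ψ a ≤ 0 := by
    unfold ww
    exact mul_nonpos_of_nonpos_of_nonneg (by linarith) (Real.exp_pos _).le
  have h3 : (ψ b - φ b) * Real.exp (QQ φ ψ b) ≤
      η * Real.exp (QQ φ ψ a + (b - a)) * (b - a) := by
    have : ww φ ψ b = (ψ b - φ b) * Real.exp (QQ φ ψ b) := rfl
    linarith
  have h4 : Real.exp (QQ φ ψ a) ≤ Real.exp (QQ φ ψ b) * Real.exp (b - a) := by
    rw [← Real.exp_add]
    apply Real.exp_le_exp.mpr
    have := (abs_le.mp (hQ b (right_mem_Icc.mpr hab))).1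
    linarith
  have h5 : η * Real.exp (QQ φ ψ a + (b - a)) * (b - a) ≤
      (η * ((b - a) * Real.exp (b - a)) * Real.exp (b - a)) * Real.exp (QQ φ ψ b) := by
    rw [Real.exp_add]
    have : 0 ≤ η * Real.exp (b - a) * (b - a) :=
      mul_nonneg (mul_nonneg hη (Real.exp_pos _).le) (by linarith)
    nlinarith
  have h6 := h3.trans h5
  have h7 := le_of_mul_le_mul_right h6 (Real.exp_pos _)
  linarith

end

end Pool.Agent.MPe3ae05
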