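import Pool.Agent.Lib.MP_e3ae05_an.Comparison

/-!
Global existence for `φ' = - sin φ + f(t)` with `f` continuous and bounded.
-/

set_option autoImplicit false

open Filter Topology Set
open scoped NNReal

namespace Pool.Agent.MPe3ae05

noncomputable section

lemma lipschitz_field (f : ℝ → ℝ) (t : ℝ) :
    LipschitzWith 1 (fun x : ℝ => -Real.sin x + f t) := by
  apply LipschitzWith.of_dist_le_mul
  intro x y
  rw [Real.dist_eq, Real.dist_eq, NNReal.coe_one, one_mul]
  have e : -Real.sin x + f t - (-Real.sin y + f t) = -(Real.sin x - Real.sin y) := by ring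
  rw [e, abs_neg, sin_sub_sin_eq y x, abs_mul]
  have := abs_qq_le y x
  have h2 := abs_nonneg (x - y)
  nlinarith

theorem exists_sol {f : ℝ → ℝ} (hf : Continuous f) {C : ℝ} (hC : ∀ t, |f t| ≤ C) (x0 : ℝ) :
    ∃ φ : ℝ → ℝ, Sol f φ ∧ φ 0 = x0 := by
  have hC0 : 0 ≤ C := (abs_nonneg _).trans (hC 0)
  set L : ℝ≥0 := ⟨1 + C, by linarith⟩ with hL
  have hloc : ∀ n : ℕ, ∃ α : ℝ → ℝ, α 0 = x0 ∧ ∀ t ∈ Ioo (-((n : ℝ) + 1)) (n + 1),
      HasDerivAt α (-Real.sin (α t) + f t) t := by
    intro n
    have hn : (0 : ℝ) < n + 1 := by positivity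
    have hpl : IsPicardLindelof (fun t x => -Real.sin x + f t) (tmin := -((n : ℝ) + 1))
        (tmax := n + 1) ⟨0, by constructor <;> linarith⟩ x0 (L * ⟨(n : ℝ) + 1, hn.le⟩) 0 L 1 := by
      constructor
      · intro t _
        exact (lipschitz_field f t).lipschitzOnWith
      · intro x _
        exact (continuous_const.add hf).continuousOn
      · intro t _ x _
        show ‖-Real.sin x + f t‖ ≤ 1 + C
        refine (norm_add_le _ _).trans ?_
        rw [norm_neg, Real.norm_eq_abs, Real.norm_eq_abs]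
        exact add_le_add (Real.abs_sin_le_one x) (hC t)
      · have e1 : (((L * ⟨(n : ℝ) + 1, hn.le⟩ : ℝ≥0) : ℝ)) = (1 + C) * (n + 1) := rfl
        have e2 : ((0 : ℝ≥0) : ℝ) = 0 := rfl
        have e3 : (L : ℝ) = 1 + C := rfl
        rw [e1, e2, e3]
        have : max ((n : ℝ) + 1 - 0) (0 - -((n : ℝ) + 1)) = n + 1 := by
          rw [sub_zero, zero_sub, neg_neg, max_self]
        show (1 + C) * max ((n : ℝ) + 1 - 0) (0 - -((n : ℝ) + 1)) ≤ (1 + C) * (n + 1) - 0
        rw [this, sub_zero]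
    obtain ⟨α, h1, h2⟩ := hpl.exists_eq_forall_mem_Icc_hasDerivWithinAt₀
    refine ⟨α, h1, ?_⟩
    intro t ht
    exact (h2 t (Ioo_subset_Icc_self ht)).hasDerivAt (Icc_mem_nhds ht.1 ht.2)
  choose α hα0 hα using hloc
  have hagree : ∀ m n : ℕ, m ≤ n → ∀ t ∈ Ioo (-((m : ℝ) + 1)) (m + 1), α m t = α n t := by
    intro m n hmn
    have hmn' : (m : ℝ) ≤ n := by exact_mod_cast hmn
    have hm : (0 : ℝ) < m + 1 := by positivity
    have := ODE_solution_unique_of_mem_Ioo (v := fun t x => -Real.sin x + f t)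
      (s := fun _ => univ) (K := 1) (f := α m) (g := α n) (t₀ := 0)
      (a := -((m : ℝ) + 1)) (b := m + 1)
      (fun t _ => (lipschitz_field f t).lipschitzOnWith)
      (by constructor <;> linarith)
      (fun t ht => ⟨hα m t ht, trivial⟩)
      (fun t ht => ⟨hα n t ⟨by linarith [ht.1], by linarith [ht.2]⟩, trivial⟩)
      (by rw [hα0, hα0])
    exact this
  refine ⟨fun t => α ⌈|t|⌉₊ t, ?_, ?_⟩
  · intro t
    set n : ℕ := ⌈|t|⌉₊ + 1 with hn
    have hev : ∀ s, |s| < |t| + 1 → α ⌈|s|⌉₊ s = α n s := by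
      intro s hs
      apply hagree
      · rw [hn]
        apply Nat.ceil_le.mpr
        push_cast
        have := Nat.le_ceil |t|
        linarith
      · have := Nat.le_ceil |s|
        have h1 := neg_abs_le s
        have h2 := le_abs_self s
        constructor <;> linarith
    have hnear : (fun t => α ⌈|t|⌉₊ t) =ᶠ[𝓝 t] α n := by
      have : ∀ᶠ s in 𝓝 t, |s| < |t| + 1 := by
        apply (continuous_abs.continuousAt (x := t)).eventually_lt continuousAt_const
        linarith
      filter_upwards [this] with s hs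
      exact hev s hs
    have htn : t ∈ Ioo (-((n : ℝ) + 1)) (n + 1) := by
      have := Nat.le_ceil |t|
      have h1 := neg_abs_le t
      have h2 := le_abs_self t
      rw [hn]
      push_cast
      constructor <;> linarith
    have h1 := (hα n t htn).congr_of_eventuallyEq hnear
    have h2 : α ⌈|t|⌉₊ t = α n t := hev t (by linarith)
    show HasDerivAt (fun t => α ⌈|t|⌉₊ t) (-Real.sin (α ⌈|t|⌉₊ t) + f t) t
    rw [h2]
    exact h1
  · exact hα0 _

end

end Pool.Agent.MPe3ae05
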