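import Pool.Agent.Lib.MP_e3ae05_an.Monodromy

/-!
Fourier coefficients, the three-term recurrence and the absence of low adjacencies.
-/

set_option autoImplicit false

open Filter Topology Set MeasureTheory

namespace Pool.Agent.MPe3ae05

noncomputable section

/-- Fourier coefficients over one period -/
def cc (ω ν : ℝ) (y : ℝ → ℂ) (k : ℤ) : ℂ :=
  ∫ t in (0 : ℝ)..(2 * Real.pi / ω), y t * ee ω ν k t

lemma PairSol.cy {B A ω ν : ℝ} {y g : ℝ → ℂ} (h : PairSol B A ω ν y g) : Continuous y :=
  continuous_iff_continuousAt.mpr (fun t => (h.hy t).continuousAt)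

lemma PairSol.cg {B A ω ν : ℝ} {y g : ℝ → ℂ} (h : PairSol B A ω ν y g) : Continuous g :=
  continuous_iff_continuousAt.mpr (fun t => (h.hg t).continuousAt)

lemma cc_comb {ω ν : ℝ} {y1 y2 : ℝ → ℂ} (h1 : Continuous y1) (h2 : Continuous y2) (a b : ℂ)
    (k : ℤ) : cc ω ν (fun t => a * y1 t + b * y2 t) k = a * cc ω ν y1 k + b * cc ω ν y2 k := by
  unfold cc
  have hc := continuous_ee ω ν k
  rw [← intervalIntegral.integral_const_mul, ← intervalIntegral.integral_const_mul,
    ← intervalIntegral.integral_add]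
  · congr 1
    funext t
    ring
  · exact (continuous_const.mul (h1.mul hc)).intervalIntegrable _ _
  · exact (continuous_const.mul (h2.mul hc)).intervalIntegrable _ _

lemma norm_cc_le {ω ν : ℝ} (hω : 0 < ω) (y : ℝ → ℂ) :
    ∃ C : ℝ, ∀ k, ‖cc ω ν y k‖ ≤ C := by
  refine ⟨∫ t in (0 : ℝ)..(2 * Real.pi / ω), ‖y t‖, fun k => ?_⟩
  unfold cc
  have hT : 0 ≤ 2 * Real.pi / ω := by positivity
  refine (intervalIntegral.norm_integral_le_integral_norm hT).trans (le_of_eq ?_)
  congr 1
  funext t
  rw [norm_mul, norm_ee, mul_one]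

lemma cc_g_eq {B A ω ν : ℝ} (hω : 0 < ω) {y g : ℝ → ℂ} (h : PairSol B A ω ν y g) (k : ℤ) :
    cc ω ν g k = Complex.I * (((k + ν) * ω : ℝ) : ℂ) * cc ω ν y k := by
  have hc := continuous_ee ω ν k
  have hd : ∀ t, HasDerivAt (fun t => y t * ee ω ν k t)
      (g t * ee ω ν k t - Complex.I * (((k + ν) * ω : ℝ) : ℂ) * (y t * ee ω ν k t)) t := by
    intro t
    have := (h.hy t).mul (hasDerivAt_ee ω ν k t)
    refine this.congr_deriv ?_
    ring
  have i1 : IntervalIntegrable (fun t => g t * ee ω ν k t) volume 0 (2 * Real.pi / ω) :=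
    (h.cg.mul hc).intervalIntegrable _ _
  have i2 : IntervalIntegrable (fun t => Complex.I * (((k + ν) * ω : ℝ) : ℂ) *
      (y t * ee ω ν k t)) volume 0 (2 * Real.pi / ω) :=
    (continuous_const.mul (h.cy.mul hc)).intervalIntegrable _ _
  have hi := intervalIntegral.integral_eq_sub_of_hasDerivAt (a := 0) (b := 2 * Real.pi / ω)
    (fun t _ => hd t) (i1.sub i2)
  rw [ee_period hω, h.py, ee_zero, mul_one, sub_self,
    intervalIntegral.integral_sub i1 i2,
    intervalIntegral.integral_const_mul] at hi
  unfold cc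
  exact sub_eq_zero.mp hi

lemma cc_rec {B A ω ν : ℝ} (hω : 0 < ω) {y g : ℝ → ℂ} (h : PairSol B A ω ν y g) (k : ℤ) :
    Complex.I * ((B : ℂ) * cc ω ν g k + (A : ℂ) / 2 * (cc ω ν g (k - 1) + cc ω ν g (k + 1))) +
      cc ω ν y k / 4 = Complex.I * (((k + ν) * ω : ℝ) : ℂ) * cc ω ν g k := by
  have hc := continuous_ee ω ν k
  have hc1 := continuous_ee ω ν (k - 1)
  have hc2 := continuous_ee ω ν (k + 1)
  have hd : ∀ t, HasDerivAt (fun t => g t * ee ω ν k t)
      (Complex.I * (B : ℂ) * (g t * ee ω ν k t) +
        (Complex.I * ((A : ℂ) / 2) * (g t * ee ω ν (k - 1) t) +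
         (Complex.I * ((A : ℂ) / 2) * (g t * ee ω ν (k + 1) t) +
         (1 / 4 * (y t * ee ω ν k t) -
          Complex.I * (((k + ν) * ω : ℝ) : ℂ) * (g t * ee ω ν k t))))) t := by
    intro t
    have := (h.hg t).mul (hasDerivAt_ee ω ν k t)
    refine this.congr_deriv ?_
    have e := cos_mul_ee ω ν k t
    unfold ff
    push_cast
    rw [Complex.ofReal_cos] at e
    have e2 : Complex.I * ((B : ℂ) + (A : ℂ) * Complex.cos (ω * t)) * g t * ee ω ν k t =
        Complex.I * (B : ℂ) * (g t * ee ω ν k t) +
        Complex.I * (A : ℂ) * g t * (Complex.cos (ω * t) * ee ω ν k t) := by ring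
    push_cast at e
    rw [add_mul, e2, e]
    ring
  have i1 : IntervalIntegrable (fun t => Complex.I * (B : ℂ) * (g t * ee ω ν k t)) volume 0
      (2 * Real.pi / ω) := (continuous_const.mul (h.cg.mul hc)).intervalIntegrable _ _
  have i2 : IntervalIntegrable (fun t => Complex.I * ((A : ℂ) / 2) * (g t * ee ω ν (k - 1) t))
      volume 0 (2 * Real.pi / ω) := (continuous_const.mul (h.cg.mul hc1)).intervalIntegrable _ _
  have i3 : IntervalIntegrable (fun t => Complex.I * ((A : ℂ) / 2) * (g t * ee ω ν (k + 1) t))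
      volume 0 (2 * Real.pi / ω) := (continuous_const.mul (h.cg.mul hc2)).intervalIntegrable _ _
  have i4 : IntervalIntegrable (fun t => (1 / 4 : ℂ) * (y t * ee ω ν k t))
      volume 0 (2 * Real.pi / ω) := (continuous_const.mul (h.cy.mul hc)).intervalIntegrable _ _
  have i5 : IntervalIntegrable (fun t => Complex.I * (((k + ν) * ω : ℝ) : ℂ) *
      (g t * ee ω ν k t)) volume 0 (2 * Real.pi / ω) :=
    (continuous_const.mul (h.cg.mul hc)).intervalIntegrable _ _
  have hi := intervalIntegral.integral_eq_sub_of_hasDerivAt (a := 0) (b := 2 * Real.pi / ω)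
    (fun t _ => hd t) (i1.add (i2.add (i3.add (i4.sub i5))))
  rw [ee_period hω, h.pg, ee_zero, mul_one, sub_self,
    intervalIntegral.integral_add i1 (i2.add (i3.add (i4.sub i5))),
    intervalIntegral.integral_add i2 (i3.add (i4.sub i5)),
    intervalIntegral.integral_add i3 (i4.sub i5),
    intervalIntegral.integral_sub i4 i5,
    intervalIntegral.integral_const_mul, intervalIntegral.integral_const_mul,
    intervalIntegral.integral_const_mul, intervalIntegral.integral_const_mul,
    intervalIntegral.integral_const_mul] at hi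
  unfold cc
  linear_combination hi

/-- bounded convex sequences vanishing at `0` vanish -/
lemma convex_bounded_zero {a : ℕ → ℝ} (h0 : a 0 = 0) (hpos : ∀ j, 0 ≤ a j)
    (hconv : ∀ j, 2 * a (j + 1) ≤ a j + a (j + 2)) {C : ℝ} (hC : ∀ j, a j ≤ C) :
    ∀ j, a j = 0 := by
  have hinc : ∀ j, a (j + 1) ≤ a j := by
    intro j
    by_contra hcon
    rw [not_le] at hcon
    set δ := a (j + 1) - a j with hδ
    have hδ0 : 0 < δ := by linarith
    have hind : ∀ i : ℕ, δ ≤ a (j + i + 1) - a (j + i) ∧ a j + i * δ ≤ a (j + i) := by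
      intro i
      induction i with
      | zero => constructor
                · simp [hδ]
                · simp
      | succ i ih =>
        have h1 := hconv (j + i)
        have e1 : j + (i + 1) + 1 = j + i + 2 := by ring
        have e2 : j + (i + 1) = j + i + 1 := by ring
        rw [e1, e2]
        constructor
        · linarith [ih.1]
        · push_cast
          linarith [ih.1, ih.2]
    obtain ⟨i, hi⟩ := exists_nat_gt (C / δ)
    have h1 := (hind i).2
    have h2 := hC (j + i)
    rw [div_lt_iff₀ hδ0] at hi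
    have h3 := hpos j
    linarith
  intro j
  apply le_antisymm _ (hpos j)
  induction j with
  | zero => exact h0.le
  | succ j ih => exact (hinc j).trans ih

/-- uniqueness for Fourier coefficients on one period -/
lemma fourier_unique {T : ℝ} (hT : 0 < T) {h : ℝ → ℂ} (hc : Continuous h) (hp : h 0 = h T)
    (hz : ∀ k : ℤ, ∫ t in (0 : ℝ)..T, Complex.exp (-(Complex.I * ((2 * Real.pi * k * t / T : ℝ) : ℂ))) * h t = 0) :
    h 0 = 0 := by
  have : Fact (0 < T) := ⟨hT⟩
  have hcont : Continuous (AddCircle.liftIco T 0 h) := by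
    apply AddCircle.liftIco_continuous
    · rw [zero_add]; exact hp
    · exact hc.continuousOn
  set H : C(AddCircle T, ℂ) := ⟨AddCircle.liftIco T 0 h, hcont⟩ with hH
  have hcoef : ∀ k : ℤ, fourierCoeff H k = 0 := by
    intro k
    have e1 : fourierCoeff H k = fourierCoeff (AddCircle.liftIco T 0 h) k := rfl
    rw [e1, fourierCoeff_liftIco_eq, fourierCoeffOn_eq_integral]
    have : (∫ x in (0 : ℝ)..0 + T, fourier (-k) (x : AddCircle (0 + T - 0)) • h x) = 0 := by
      rw [zero_add]
      rw [← hz k]
      apply intervalIntegral.integral_congr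
      intro t _
      simp only [smul_eq_mul]
      congr 1
      rw [fourier_coe_apply]
      congr 1
      push_cast
      have hT' : (T : ℂ) ≠ 0 := by exact_mod_cast hT.ne'
      field_simp
      ring
    rw [this, smul_zero]
  have hsum : Summable (fourierCoeff H) := by
    have : fourierCoeff H = fun _ => 0 := funext hcoef
    rw [this]
    exact summable_zero
  have h1 := hasSum_fourier_series_of_summable hsum
  simp only [hcoef, zero_smul] at h1
  have h2 : H = 0 := h1.unique hasSum_zero
  have h3 : H (0 : ℝ) = 0 := by rw [h2]; rfl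
  have h4 : H ((0 : ℝ) : AddCircle T) = h 0 := by
    show AddCircle.liftIco T 0 h ((0 : ℝ) : AddCircle T) = h 0
    exact AddCircle.liftIco_coe_apply (by constructor <;> simp [hT])
  rw [← h4]
  exact h3

end

end Pool.Agent.MPe3ae05
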