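import Pool.Agent.Lib.MP_e3ae05_an.SlowFast

/-!
The linear system attached to the equation.
-/

set_option autoImplicit false

open Filter Topology Set

namespace Pool.Agent.MPe3ae05

noncomputable section

/-- amplitude -/
def Rr (φ : ℝ → ℝ) (t : ℝ) : ℝ := Real.exp (1 / 2 * ∫ s in (0 : ℝ)..t, Real.cos (φ s))

lemma Rr_zero (φ : ℝ → ℝ) : Rr φ 0 = 1 := by
  unfold Rr; simp

lemma Rr_pos (φ : ℝ → ℝ) (t : ℝ) : 0 < Rr φ t := Real.exp_pos _

lemma hasDerivAt_Rr {φ : ℝ → ℝ} (hφ : Continuous φ) (t : ℝ) :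
    HasDerivAt (Rr φ) (1 / 2 * Real.cos (φ t) * Rr φ t) t := by
  have hc : Continuous (fun s => Real.cos (φ s)) := Real.continuous_cos.comp hφ
  have h1 : HasDerivAt (fun t => ∫ s in (0 : ℝ)..t, Real.cos (φ s)) (Real.cos (φ t)) t :=
    intervalIntegral.integral_hasDerivAt_right (hc.intervalIntegrable _ _)
      (hc.stronglyMeasurableAtFilter _ _) hc.continuousAt
  have h2 := (h1.const_mul (1 / 2 : ℝ)).exp
  refine h2.congr_deriv ?_
  unfold Rr
  ring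

/-- the Wronskian of two solutions -/
def Wr (φ ψ : ℝ → ℝ) (t : ℝ) : ℝ := Rr φ t * Rr ψ t * Real.sin ((φ t - ψ t) / 2)

lemma Wr_const {f φ ψ : ℝ → ℝ} (hφ : Sol f φ) (hψ : Sol f ψ) (t : ℝ) :
    Wr φ ψ t = Wr φ ψ 0 := by
  have hd : ∀ t, HasDerivAt (Wr φ ψ) 0 t := by
    intro t
    have h1 := (hasDerivAt_Rr hφ.continuous t).mul (hasDerivAt_Rr hψ.continuous t)
    have h2 := (((hφ t).sub (hψ t)).div_const 2).sin
    have h3 := h1.mul h2
    refine h3.congr_deriv ?_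
    have hs : Real.sin (φ t) - Real.sin (ψ t) =
        2 * Real.sin ((φ t - ψ t) / 2) * Real.cos ((φ t + ψ t) / 2) := Real.sin_sub_sin _ _
    have hcs : Real.cos (φ t) + Real.cos (ψ t) =
        2 * Real.cos ((φ t + ψ t) / 2) * Real.cos ((φ t - ψ t) / 2) := Real.cos_add_cos _ _
    simp only [Pi.mul_apply, Pi.sub_apply]
    have e1 : -Real.sin (φ t) + f t - (-Real.sin (ψ t) + f t) =
        -(Real.sin (φ t) - Real.sin (ψ t)) := by ring
    rw [e1, hs]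
    have e2 : 1 / 2 * Real.cos (φ t) * Rr φ t * Rr ψ t + Rr φ t * (1 / 2 * Real.cos (ψ t) * Rr ψ t)
        = 1 / 2 * (Real.cos (φ t) + Real.cos (ψ t)) * Rr φ t * Rr ψ t := by ring
    rw [e2, hcs]
    ring
  apply is_const_of_deriv_eq_zero (fun t => (hd t).differentiableAt)
  intro t
  exact (hd t).deriv

lemma Rr_mul_Rr {f φ ψ : ℝ → ℝ} (hφ : Sol f φ) (hψ : Sol f ψ) {T : ℝ} {r : ℤ}
    (h1 : φ T = φ 0 + r * (2 * Real.pi)) (h2 : ψ T = ψ 0 + r * (2 * Real.pi))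
    (h0 : Real.sin ((φ 0 - ψ 0) / 2) ≠ 0) : Rr φ T * Rr ψ T = 1 := by
  have h3 := Wr_const hφ hψ T
  unfold Wr at h3
  rw [Rr_zero, Rr_zero, h1, h2] at h3
  have e : (φ 0 + r * (2 * Real.pi) - (ψ 0 + r * (2 * Real.pi))) / 2 = (φ 0 - ψ 0) / 2 := by ring
  rw [e] at h3
  have h4 := mul_right_cancel₀ h0 h3
  linarith

/-- the antiderivative of the forcing -/
def FF (B A ω t : ℝ) : ℝ := B * t + A / ω * Real.sin (ω * t)

lemma hasDerivAt_FF {B A ω : ℝ} (hω : 0 < ω) (t : ℝ) : HasDerivAt (FF B A ω) (ff B A ω t) t := by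
  have h1 : HasDerivAt (fun t : ℝ => ω * t) (ω * 1) t := (hasDerivAt_id t).const_mul ω
  have h2 := ((hasDerivAt_id t).const_mul B).add ((h1.sin).const_mul (A / ω))
  refine h2.congr_deriv ?_
  unfold ff
  field_simp

/-- first component of the linear system -/
def yy (B A ω : ℝ) (φ : ℝ → ℝ) (t : ℝ) : ℂ :=
  (Rr φ t : ℂ) * Complex.exp (Complex.I * (((FF B A ω t - φ t) / 2 : ℝ) : ℂ))

/-- second component of the linear system -/
def gg (B A ω : ℝ) (φ : ℝ → ℝ) (t : ℝ) : ℂ :=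
  1 / 2 * (Rr φ t : ℂ) * Complex.exp (Complex.I * (((FF B A ω t + φ t) / 2 : ℝ) : ℂ))

lemma hasDerivAt_yy {B A ω : ℝ} (hω : 0 < ω) {φ : ℝ → ℝ} (hφ : Sol (ff B A ω) φ) (t : ℝ) :
    HasDerivAt (yy B A ω φ) (gg B A ω φ t) t := by
  have h1 := (hasDerivAt_Rr hφ.continuous t).ofReal_comp
  have h2 := ((((hasDerivAt_FF (B := B) (A := A) hω t).sub (hφ t)).div_const 2).ofReal_comp).const_mul
    Complex.I
  have h3 := h1.mul h2.cexp
  refine h3.congr_deriv ?_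
  unfold gg
  simp only [Pi.sub_apply, Complex.ofReal_div, Complex.ofReal_sub,
    Complex.ofReal_add, Complex.ofReal_neg, Complex.ofReal_mul, Complex.ofReal_sin,
    Complex.ofReal_cos, Complex.ofReal_one, Complex.ofReal_ofNat]
  have e1 : Complex.I * (((FF B A ω t : ℂ) + (φ t : ℂ)) / 2) =
      Complex.I * (((FF B A ω t : ℂ) - (φ t : ℂ)) / 2) + (φ t : ℂ) * Complex.I := by ring
  rw [e1, Complex.exp_add, Complex.exp_mul_I]
  ring

lemma hasDerivAt_gg {B A ω : ℝ} (hω : 0 < ω) {φ : ℝ → ℝ} (hφ : Sol (ff B A ω) φ) (t : ℝ) :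
    HasDerivAt (gg B A ω φ)
      (Complex.I * (ff B A ω t : ℂ) * gg B A ω φ t + yy B A ω φ t / 4) t := by
  have h1 := ((hasDerivAt_Rr hφ.continuous t).ofReal_comp).const_mul (1 / 2 : ℂ)
  have h2 := ((((hasDerivAt_FF (B := B) (A := A) hω t).add (hφ t)).div_const 2).ofReal_comp).const_mul
    Complex.I
  have h3 := h1.mul h2.cexp
  refine h3.congr_deriv ?_
  unfold gg yy
  simp only [Pi.add_apply, Complex.ofReal_div, Complex.ofReal_sub,
    Complex.ofReal_add, Complex.ofReal_neg, Complex.ofReal_mul, Complex.ofReal_sin,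
    Complex.ofReal_cos, Complex.ofReal_one, Complex.ofReal_ofNat]
  have e1 : Complex.I * (((FF B A ω t : ℂ) - (φ t : ℂ)) / 2) =
      Complex.I * (((FF B A ω t : ℂ) + (φ t : ℂ)) / 2) + (-(φ t : ℂ)) * Complex.I := by ring
  rw [e1, Complex.exp_add, Complex.exp_mul_I, Complex.cos_neg, Complex.sin_neg]
  ring

/-- the exponentials -/
def ee (ω ν : ℝ) (k : ℤ) (t : ℝ) : ℂ := Complex.exp (-(Complex.I * (((k + ν) * ω * t : ℝ) : ℂ)))

lemma hasDerivAt_ee (ω ν : ℝ) (k : ℤ) (t : ℝ) :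
    HasDerivAt (ee ω ν k) (-(Complex.I * (((k + ν) * ω : ℝ) : ℂ)) * ee ω ν k t) t := by
  have h1 : HasDerivAt (fun t : ℝ => (k + ν) * ω * t) ((k + ν) * ω * 1) t :=
    (hasDerivAt_id t).const_mul _
  have h2 := ((h1.ofReal_comp).const_mul Complex.I).neg
  have h3 := h2.cexp
  refine h3.congr_deriv ?_
  unfold ee
  rw [mul_one]
  simp only [Pi.neg_apply]
  ring

lemma continuous_ee (ω ν : ℝ) (k : ℤ) : Continuous (ee ω ν k) :=
  continuous_iff_continuousAt.mpr (fun t => (hasDerivAt_ee ω ν k t).continuousAt)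

lemma norm_ee (ω ν : ℝ) (k : ℤ) (t : ℝ) : ‖ee ω ν k t‖ = 1 := by
  unfold ee
  rw [show -(Complex.I * (((k + ν) * ω * t : ℝ) : ℂ)) = ((-((k + ν) * ω * t) : ℝ) : ℂ) * Complex.I by
    push_cast; ring]
  exact Complex.norm_exp_ofReal_mul_I _

lemma cos_mul_ee (ω ν : ℝ) (k : ℤ) (t : ℝ) :
    (Real.cos (ω * t) : ℂ) * ee ω ν k t = (ee ω ν (k - 1) t + ee ω ν (k + 1) t) / 2 := by
  unfold ee
  have e1 : -(Complex.I * ((((k - 1 : ℤ) + ν) * ω * t : ℝ) : ℂ)) =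
      -(Complex.I * (((k + ν) * ω * t : ℝ) : ℂ)) + ((ω * t : ℝ) : ℂ) * Complex.I := by
    push_cast; ring
  have e2 : -(Complex.I * ((((k + 1 : ℤ) + ν) * ω * t : ℝ) : ℂ)) =
      -(Complex.I * (((k + ν) * ω * t : ℝ) : ℂ)) + (-((ω * t : ℝ) : ℂ)) * Complex.I := by
    push_cast; ring
  rw [e1, e2, Complex.exp_add, Complex.exp_add, Complex.exp_mul_I, Complex.exp_mul_I,
    Complex.cos_neg, Complex.sin_neg, Complex.ofReal_cos]
  ring

lemma ee_period {ω : ℝ} (hω : 0 < ω) (ν : ℝ) (k : ℤ) :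
    ee ω ν k (2 * Real.pi / ω) = Complex.exp (-(Complex.I * ((2 * Real.pi * ν : ℝ) : ℂ))) := by
  unfold ee
  have e : (k + ν) * ω * (2 * Real.pi / ω) = 2 * Real.pi * ν + k * (2 * Real.pi) := by
    field_simp; ring
  rw [e]
  have e2 : -(Complex.I * ((2 * Real.pi * ν + k * (2 * Real.pi) : ℝ) : ℂ)) =
      -(Complex.I * ((2 * Real.pi * ν : ℝ) : ℂ)) + ((-k : ℤ) : ℂ) * (2 * Real.pi * Complex.I) := by
    push_cast; ring
  rw [e2, Complex.exp_add, Complex.exp_int_mul_two_pi_mul_I, mul_one]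

lemma ee_zero (ω ν : ℝ) (k : ℤ) : ee ω ν k 0 = 1 := by
  unfold ee; simp

/-- a solution of the linear system which is periodic up to the multiplier `exp(2 π i ν)` -/
structure PairSol (B A ω ν : ℝ) (y g : ℝ → ℂ) : Prop where
  hy : ∀ t, HasDerivAt y (g t) t
  hg : ∀ t, HasDerivAt g (Complex.I * (ff B A ω t : ℂ) * g t + y t / 4) t
  py : y (2 * Real.pi / ω) * Complex.exp (-(Complex.I * ((2 * Real.pi * ν : ℝ) : ℂ))) = y 0
  pg : g (2 * Real.pi / ω) * Complex.exp (-(Complex.I * ((2 * Real.pi * ν : ℝ) : ℂ))) = g 0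

lemma PairSol.comb {B A ω ν : ℝ} {y1 g1 y2 g2 : ℝ → ℂ} (h1 : PairSol B A ω ν y1 g1)
    (h2 : PairSol B A ω ν y2 g2) (a b : ℂ) :
    PairSol B A ω ν (fun t => a * y1 t + b * y2 t) (fun t => a * g1 t + b * g2 t) := by
  constructor
  · intro t
    exact ((h1.hy t).const_mul a).add ((h2.hy t).const_mul b)
  · intro t
    have := ((h1.hg t).const_mul a).add ((h2.hg t).const_mul b)
    refine this.congr_deriv ?_
    ring
  · have e1 := h1.py
    have e2 := h2.py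
    rw [← e1, ← e2]; ring
  · have e1 := h1.pg
    have e2 := h2.pg
    rw [← e1, ← e2]; ring

lemma pairSol_of_sol {B A ω : ℝ} (hω : 0 < ω) {r : ℤ} {φ : ℝ → ℝ} (hφ : Sol (ff B A ω) φ)
    (hper : φ (2 * Real.pi / ω) = φ 0 + r * (2 * Real.pi)) (hR : Rr φ (2 * Real.pi / ω) = 1) :
    PairSol B A ω (B / (2 * ω) - r / 2) (yy B A ω φ) (gg B A ω φ) := by
  have hF0 : FF B A ω 0 = 0 := by unfold FF; simp
  have hFT : FF B A ω (2 * Real.pi / ω) = B * (2 * Real.pi / ω) := by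
    unfold FF
    have : ω * (2 * Real.pi / ω) = 2 * Real.pi := by field_simp
    rw [this, Real.sin_two_pi]; ring
  refine ⟨hasDerivAt_yy hω hφ, hasDerivAt_gg hω hφ, ?_, ?_⟩
  · unfold yy
    rw [hR, Rr_zero, hF0, hFT, hper, Complex.ofReal_one, one_mul, one_mul, ← Complex.exp_add]
    congr 1
    have hω' : (ω : ℂ) ≠ 0 := by exact_mod_cast hω.ne'
    push_cast
    field_simp
    ring
  · unfold gg
    rw [hR, Rr_zero, hF0, hFT, hper, Complex.ofReal_one, mul_one, mul_assoc, ← Complex.exp_add]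
    congr 1
    have hω' : (ω : ℂ) ≠ 0 := by exact_mod_cast hω.ne'
    have e : Complex.I * (((B * (2 * Real.pi / ω) + (φ 0 + r * (2 * Real.pi))) / 2 : ℝ) : ℂ) +
        -(Complex.I * ((2 * Real.pi * (B / (2 * ω) - r / 2) : ℝ) : ℂ)) =
        Complex.I * (((0 + φ 0) / 2 : ℝ) : ℂ) + (r : ℂ) * (2 * Real.pi * Complex.I) := by
      push_cast
      field_simp
      ring
    rw [e, Complex.exp_add, Complex.exp_int_mul_two_pi_mul_I, mul_one]

end

end Pool.Agent.MPe3ae05
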