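import Pool.Agent.Lib.MP_e3ae05_an.FourierPart

/-!
If every solution advances by exactly `2 π r` in one period then `A > 1 + |B|`.
-/

set_option autoImplicit false

open Filter Topology Set MeasureTheory

namespace Pool.Agent.MPe3ae05

noncomputable section

/-- the key inequality for negative frequencies -/
lemma key_ineq {B A l : ℝ} (hA : 0 < A) (hB : 0 ≤ B) (hAB : A ≤ 1 + B) (hl : l < 0)
    {d c dm dp : ℂ} (h1 : d = Complex.I * (l : ℂ) * c)
    (h2 : Complex.I * ((B : ℂ) * d + (A : ℂ) / 2 * (dm + dp)) + c / 4 =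
      Complex.I * (l : ℂ) * d) : 2 * ‖d‖ ≤ ‖dm‖ + ‖dp‖ := by
  have hlC : (l : ℂ) ≠ 0 := by exact_mod_cast hl.ne
  have hI := Complex.I_ne_zero
  have hc : c = -(Complex.I * d / l) := by
    rw [h1]
    field_simp
    rw [Complex.I_sq]
    ring
  set m : ℝ := l - B + 1 / (4 * l) with hm
  have h3 : (A : ℂ) / 2 * (dm + dp) = (m : ℂ) * d := by
    rw [hc] at h2
    have h4 : Complex.I * ((A : ℂ) / 2 * (dm + dp)) = Complex.I * ((m : ℂ) * d) := by
      rw [hm]
      push_cast
      field_simp at h2 ⊢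
      linear_combination h2
    exact mul_left_cancel₀ hI h4
  have h5 : A / 2 * ‖dm + dp‖ = |m| * ‖d‖ := by
    have := congrArg norm h3
    rw [norm_mul, norm_mul] at this
    have e1 : ‖(A : ℂ) / 2‖ = A / 2 := by
      rw [norm_div, Complex.norm_real, Real.norm_eq_abs, abs_of_pos hA]
      simp
    rw [e1, Complex.norm_real, Real.norm_eq_abs] at this
    exact this
  have h6 : 1 + B ≤ |m| := by
    have hneg : m ≤ -(1 + B) := by
      have h7 : l + 1 / (4 * l) ≤ -1 := by
        have hl4 : 4 * l < 0 := by linarith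
        have : l + 1 / (4 * l) + 1 = (2 * l + 1) ^ 2 / (4 * l) := by
          have := hl.ne
          field_simp
          ring
        have h8 : (2 * l + 1) ^ 2 / (4 * l) ≤ 0 :=
          div_nonpos_of_nonneg_of_nonpos (sq_nonneg _) hl4.le
        linarith
      rw [hm]; linarith
    rw [abs_of_nonpos (by linarith)]
    linarith
  have h7 : A * ‖d‖ ≤ A * ((‖dm‖ + ‖dp‖) / 2) := by
    calc A * ‖d‖ ≤ |m| * ‖d‖ := mul_le_mul_of_nonneg_right (hAB.trans h6) (norm_nonneg _)
      _ = A / 2 * ‖dm + dp‖ := h5.symm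
      _ ≤ A / 2 * (‖dm‖ + ‖dp‖) := mul_le_mul_of_nonneg_left (norm_add_le _ _) (by linarith)
      _ = A * ((‖dm‖ + ‖dp‖) / 2) := by ring
  have h8 := le_of_mul_le_mul_left h7 hA
  linarith

/-- a pair solution whose critical Fourier coefficient vanishes is zero at time `0` -/
lemma pair_zero {B A ω ν : ℝ} (hω : 0 < ω) (hA : 0 < A) (hB : 0 ≤ B) (hAB : A ≤ 1 + B)
    {y g : ℝ → ℂ} (h : PairSol B A ω ν y g) (hκ : cc ω ν y ⌈-ν⌉ = 0) : y 0 = 0 ∧ g 0 = 0 := by
  set κ : ℤ := ⌈-ν⌉ with hκdef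
  have hκ1 : -ν ≤ κ := Int.le_ceil _
  have hκ2 : (κ : ℝ) < -ν + 1 := Int.ceil_lt_add_one _
  have hA2 : (A : ℂ) / 2 ≠ 0 := by
    have : (A : ℂ) ≠ 0 := by exact_mod_cast hA.ne'
    simpa using this
  have hI := Complex.I_ne_zero
  have hdκ : cc ω ν g κ = 0 := by rw [cc_g_eq hω h, hκ, mul_zero]
  -- negative side
  have hneg : ∀ j : ℕ, cc ω ν g (κ - j) = 0 := by
    obtain ⟨C, hC⟩ := norm_cc_le (ν := ν) hω g
    have := convex_bounded_zero (a := fun j : ℕ => ‖cc ω ν g (κ - j)‖) (C := C)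
      (by simp [hdκ]) (fun j => norm_nonneg _) (by
        intro j
        have hl : (((κ - ((j + 1 : ℕ) : ℤ) : ℤ) : ℝ) + ν) * ω < 0 := by
          apply mul_neg_of_neg_of_pos _ hω
          push_cast
          have : (0 : ℝ) ≤ j := Nat.cast_nonneg j
          linarith
        have h1 := cc_g_eq hω h (κ - ((j + 1 : ℕ) : ℤ))
        have h2 := cc_rec hω h (κ - ((j + 1 : ℕ) : ℤ))
        have h3 := key_ineq hA hB hAB hl h1 h2
        have e1 : κ - ((j + 1 : ℕ) : ℤ) - 1 = κ - ((j + 2 : ℕ) : ℤ) := by push_cast; ring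
        have e2 : κ - ((j + 1 : ℕ) : ℤ) + 1 = κ - ((j : ℕ) : ℤ) := by push_cast; ring
        rw [e1, e2] at h3
        show 2 * ‖cc ω ν g (κ - ((j + 1 : ℕ) : ℤ))‖ ≤ ‖cc ω ν g (κ - (j : ℤ))‖ +
          ‖cc ω ν g (κ - ((j + 2 : ℕ) : ℤ))‖
        linarith) (fun j => hC _)
    intro j
    exact norm_eq_zero.mp (this j)
  -- vanishing of the coefficients of `y` away from `κ`
  have hcy : ∀ k : ℤ, k ≠ κ → cc ω ν g k = 0 → cc ω ν y k = 0 := by
    intro k hk hz
    have h1 := cc_g_eq hω h k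
    rw [hz] at h1
    have h2 : (((k + ν) * ω : ℝ) : ℂ) ≠ 0 := by
      rw [Complex.ofReal_ne_zero]
      apply mul_ne_zero _ hω.ne'
      intro h0
      apply hk
      have h3 : (k : ℝ) = -ν := by linarith
      rw [hκdef, ← h3, Int.ceil_intCast]
    have h3 := (mul_eq_zero.mp h1.symm).resolve_left (mul_ne_zero hI h2)
    exact h3
  -- positive side
  have hposs : ∀ j : ℕ, cc ω ν g (κ + j) = 0 ∧ cc ω ν g (κ + j + 1) = 0 := by
    intro j
    induction j with
    | zero =>
      constructor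
      · simpa using hdκ
      · have h1 := cc_rec hω h κ
        have h2 := hneg 1
        simp only [Nat.cast_one] at h2
        rw [hdκ, h2, hκ] at h1
        simp only [Nat.cast_zero, add_zero]
        simp only [mul_zero, zero_add, zero_div, add_zero] at h1
        have h3 := (mul_eq_zero.mp h1).resolve_left hI
        exact (mul_eq_zero.mp h3).resolve_left hA2
    | succ j ih =>
      have e1 : κ + ((j + 1 : ℕ) : ℤ) = κ + j + 1 := by push_cast; ring
      rw [e1]
      refine ⟨ih.2, ?_⟩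
      have h1 := cc_rec hω h (κ + j + 1)
      have h2 : cc ω ν y (κ + j + 1) = 0 := hcy _ (by omega) ih.2
      have e2 : κ + (j : ℤ) + 1 - 1 = κ + j := by ring
      rw [e2, ih.1, ih.2, h2] at h1
      simp only [mul_zero, zero_add, zero_div, add_zero] at h1
      have h3 := (mul_eq_zero.mp h1).resolve_left hI
      exact (mul_eq_zero.mp h3).resolve_left hA2
  have hallg : ∀ k : ℤ, cc ω ν g k = 0 := by
    intro k
    rcases le_total k κ with hk | hk
    · have := hneg (κ - k).toNat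
      rw [Int.toNat_of_nonneg (by omega)] at this
      simpa using this
    · have := (hposs (k - κ).toNat).1
      rw [Int.toNat_of_nonneg (by omega)] at this
      simpa using this
  have hally : ∀ k : ℤ, cc ω ν y k = 0 := by
    intro k
    by_cases hk : k = κ
    · rw [hk]; exact hκ
    · exact hcy k hk (hallg k)
  have hT : 0 < 2 * Real.pi / ω := by positivity
  have huniq : ∀ z : ℝ → ℂ, Continuous z →
      z (2 * Real.pi / ω) * Complex.exp (-(Complex.I * ((2 * Real.pi * ν : ℝ) : ℂ))) = z 0 →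
      (∀ k : ℤ, cc ω ν z k = 0) → z 0 = 0 := by
    intro z hz hp hall
    have := fourier_unique hT (h := fun t => z t * ee ω ν 0 t) (hz.mul (continuous_ee _ _ _))
      (by rw [ee_zero, mul_one, ee_period hω, hp]) (by
        intro k
        rw [← hall k]
        unfold cc
        apply intervalIntegral.integral_congr
        intro t _
        show Complex.exp (-(Complex.I * ((2 * Real.pi * k * t / (2 * Real.pi / ω) : ℝ) : ℂ))) *
          (z t * ee ω ν 0 t) = z t * ee ω ν k t
        have e : Complex.exp (-(Complex.I * ((2 * Real.pi * k * t / (2 * Real.pi / ω) : ℝ) : ℂ))) *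
            ee ω ν 0 t = ee ω ν k t := by
          unfold ee
          rw [← Complex.exp_add]
          congr 1
          have hpi := Real.pi_pos.ne'
          have e2 : 2 * Real.pi * k * t / (2 * Real.pi / ω) = k * ω * t := by
            field_simp
          rw [e2]
          push_cast
          ring
        rw [← e]
        ring)
    simpa [ee_zero] using this
  exact ⟨huniq y h.cy h.py hally, huniq g h.cg h.pg hallg⟩

theorem no_low_adj {B A ω : ℝ} (hω : 0 < ω) (hA : 0 < A) (hB : 0 ≤ B) (hAB : A ≤ 1 + B)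
    {r : ℤ} (Hper : ∀ φ, Sol (ff B A ω) φ → φ (2 * Real.pi / ω) = φ 0 + r * (2 * Real.pi)) :
    False := by
  obtain ⟨φ1, hφ1, h10⟩ := exists_sol_ff B A ω 0
  obtain ⟨φ2, hφ2, h20⟩ := exists_sol_ff B A ω 2
  obtain ⟨φ3, hφ3, h30⟩ := exists_sol_ff B A ω 4
  have hpi3 := Real.pi_gt_three
  have hs1 : 0 < Real.sin 1 := Real.sin_pos_of_pos_of_lt_pi (by norm_num) (by linarith)
  have hs2 : 0 < Real.sin 2 := Real.sin_pos_of_pos_of_lt_pi (by norm_num) (by linarith)
  have p1 := Hper _ hφ1
  have p2 := Hper _ hφ2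
  have p3 := Hper _ hφ3
  have m12 := Rr_mul_Rr hφ1 hφ2 p1 p2 (by
    rw [h10, h20, show ((0 : ℝ) - 2) / 2 = -1 by norm_num, Real.sin_neg]
    exact (neg_neg_of_pos hs1).ne)
  have m13 := Rr_mul_Rr hφ1 hφ3 p1 p3 (by
    rw [h10, h30, show ((0 : ℝ) - 4) / 2 = -2 by norm_num, Real.sin_neg]
    exact (neg_neg_of_pos hs2).ne)
  have m23 := Rr_mul_Rr hφ2 hφ3 p2 p3 (by
    rw [h20, h30, show ((2 : ℝ) - 4) / 2 = -1 by norm_num, Real.sin_neg]
    exact (neg_neg_of_pos hs1).ne)
  have q1 := Rr_pos φ1 (2 * Real.pi / ω)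
  have q2 := Rr_pos φ2 (2 * Real.pi / ω)
  have q3 := Rr_pos φ3 (2 * Real.pi / ω)
  have r1 : Rr φ1 (2 * Real.pi / ω) = 1 := by
    have h1 : Rr φ1 (2 * Real.pi / ω) ^ 2 = 1 := by
      have : Rr φ1 (2 * Real.pi / ω) ^ 2 * (Rr φ2 (2 * Real.pi / ω) * Rr φ3 (2 * Real.pi / ω)) = 1 := by
        calc _ = (Rr φ1 (2 * Real.pi / ω) * Rr φ2 (2 * Real.pi / ω)) *
              (Rr φ1 (2 * Real.pi / ω) * Rr φ3 (2 * Real.pi / ω)) := by ring
          _ = 1 := by rw [m12, m13, one_mul]
      rwa [m23, mul_one] at this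
    nlinarith
  have r2 : Rr φ2 (2 * Real.pi / ω) = 1 := by rwa [r1, one_mul] at m12
  have P1 := pairSol_of_sol hω hφ1 p1 r1
  have P2 := pairSol_of_sol hω hφ2 p2 r2
  set ν := B / (2 * ω) - r / 2 with hν
  -- values at zero
  have hF0 : FF B A ω 0 = 0 := by unfold FF; simp
  have y10 : yy B A ω φ1 0 = 1 := by
    unfold yy; rw [Rr_zero, hF0, h10]; simp
  have g10 : gg B A ω φ1 0 = 1 / 2 := by
    unfold gg; rw [Rr_zero, hF0, h10]; simp
  have y20 : yy B A ω φ2 0 = Complex.exp (-Complex.I) := by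
    unfold yy; rw [Rr_zero, hF0, h20]
    simp
  have g20 : gg B A ω φ2 0 = 1 / 2 * Complex.exp Complex.I := by
    unfold gg; rw [Rr_zero, hF0, h20]
    simp
  have hdet : Complex.exp Complex.I - Complex.exp (-Complex.I) ≠ 0 := by
    have e1 : Complex.exp Complex.I = Complex.cos 1 + Complex.sin 1 * Complex.I := by
      have := Complex.exp_mul_I 1
      rwa [one_mul] at this
    have e2 : Complex.exp (-Complex.I) = Complex.cos 1 - Complex.sin 1 * Complex.I := by
      have := Complex.exp_mul_I (-1)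
      rw [Complex.cos_neg, Complex.sin_neg] at this
      rw [show -Complex.I = -1 * Complex.I by ring, this]
      ring
    rw [e1, e2]
    have e3 : Complex.cos 1 + Complex.sin 1 * Complex.I -
        (Complex.cos 1 - Complex.sin 1 * Complex.I) = 2 * Complex.sin 1 * Complex.I := by ring
    rw [e3]
    have : Complex.sin 1 ≠ 0 := by
      have h : ((Real.sin 1 : ℝ) : ℂ) ≠ 0 := by exact_mod_cast hs1.ne'
      rw [Complex.ofReal_sin] at h
      simpa using h
    exact mul_ne_zero (mul_ne_zero two_ne_zero this) Complex.I_ne_zero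
  -- only the trivial combination can vanish at `0`
  have hfin : ∀ a b : ℂ, cc ω ν (fun t => a * yy B A ω φ1 t + b * yy B A ω φ2 t) ⌈-ν⌉ = 0 →
      a = 0 ∧ b = 0 := by
    intro a b hab
    have hP := P1.comb P2 a b
    obtain ⟨z1, z2⟩ := pair_zero hω hA hB hAB hP hab
    simp only [y10, y20, g10, g20] at z1 z2
    have hb : b * (Complex.exp Complex.I - Complex.exp (-Complex.I)) = 0 := by
      linear_combination 2 * z2 - z1
    have hb0 := (mul_eq_zero.mp hb).resolve_right hdet
    rw [hb0] at z1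
    refine ⟨by simpa using z1, hb0⟩
  have c12 := cc_comb (ω := ω) (ν := ν) P1.cy P2.cy (cc ω ν (yy B A ω φ2) ⌈-ν⌉)
    (-(cc ω ν (yy B A ω φ1) ⌈-ν⌉)) ⌈-ν⌉
  have hz := hfin _ _ (by rw [c12]; ring)
  have c10 := cc_comb (ω := ω) (ν := ν) P1.cy P2.cy 1 0 ⌈-ν⌉
  have h1 := neg_eq_zero.mp hz.2
  have hz' := hfin 1 0 (by rw [c10, h1]; ring)
  exact one_ne_zero hz'.1

/-- every adjacency with `A > 0` has `A > 1 + |B|` -/
theorem adj_height {r : ℤ} {B A ω : ℝ} (hω : 0 < ω) (hA : 0 < A) (hL : InL r B A ω)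
    (hsing : ∀ B'', InL r B'' A ω → B'' = B) : 1 + |B| < A := by
  by_contra hcon
  rw [not_lt] at hcon
  rcases le_total 0 B with hB | hB
  · rw [abs_of_nonneg hB] at hcon
    apply no_low_adj hω hA hB hcon (r := r)
    intro φ hφ
    have := adj_period hω hL hsing hφ 0
    rwa [zero_add] at this
  · rw [abs_of_nonpos hB] at hcon
    have hL' := inL_reflect hω hL
    have hsing' : ∀ B'', InL (-r) B'' A ω → B'' = -B := by
      intro B'' h
      have h1 : InL r (-B'') A ω := by
        have := inL_reflect hω h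
        simpa using this
      have := hsing _ h1
      linarith
    apply no_low_adj hω hA (by linarith : 0 ≤ -B) hcon (r := -r)
    intro φ hφ
    have := adj_period hω hL' hsing' hφ 0
    rwa [zero_add] at this

end

end Pool.Agent.MPe3ae05
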