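import Pool.Agent.Lib.MP_e3ae05_an.Existence

/-!
Shifts, reflections and rotation numbers.
-/

set_option autoImplicit false

open Filter Topology Set

namespace Pool.Agent.MPe3ae05

noncomputable section

/-- the forcing -/
def ff (B A ω : ℝ) (t : ℝ) : ℝ := B + A * Real.cos (ω * t)

lemma continuous_ff (B A ω : ℝ) : Continuous (ff B A ω) := by
  unfold ff; fun_prop

lemma abs_ff_le (B A ω t : ℝ) : |ff B A ω t| ≤ |B| + |A| := by
  unfold ff
  refine (abs_add_le _ _).trans ?_
  rw [abs_mul]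
  have := Real.abs_cos_le_one (ω * t)
  have h := abs_nonneg A
  nlinarith

lemma exists_sol_ff (B A ω x0 : ℝ) : ∃ φ : ℝ → ℝ, Sol (ff B A ω) φ ∧ φ 0 = x0 :=
  exists_sol (continuous_ff B A ω) (abs_ff_le B A ω) x0

lemma sol_ff_iff {B A ω : ℝ} {φ : ℝ → ℝ} :
    (∀ t : ℝ, HasDerivAt φ (-Real.sin (φ t) + B + A * Real.cos (ω * t)) t) ↔
      Sol (ff B A ω) φ := by
  unfold Sol ff
  simp only [add_assoc]

/-- the phase-lock area number `r` -/
def InL (r : ℤ) (B A ω : ℝ) : Prop :=
  ∃ φ : ℝ → ℝ, Sol (ff B A ω) φ ∧ Tendsto (fun t : ℝ => φ t / t) atTop (𝓝 ((r : ℝ) * ω))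

lemma sol_shift {f φ : ℝ → ℝ} (h : Sol f φ) (s : ℝ) (k : ℤ) :
    Sol (fun t => f (t + s)) (fun t => φ (t + s) + k * (2 * Real.pi)) := by
  intro t
  have h1 : HasDerivAt (fun t => φ (t + s)) (-Real.sin (φ (t + s)) + f (t + s)) t :=
    (h (t + s)).comp_add_const t s
  have h2 := h1.add_const (k * (2 * Real.pi))
  simp only [Real.sin_add_int_mul_two_pi]
  exact h2

lemma sol_add_const {f φ : ℝ → ℝ} (h : Sol f φ) (k : ℤ) :
    Sol f (fun t => φ t + k * (2 * Real.pi)) := by
  have := sol_shift h 0 k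
  simpa using this

lemma ff_period {B A ω : ℝ} (hω : 0 < ω) (t : ℝ) :
    ff B A ω (t + 2 * Real.pi / ω) = ff B A ω t := by
  unfold ff
  have : ω * (t + 2 * Real.pi / ω) = ω * t + 2 * Real.pi := by field_simp
  rw [this, Real.cos_add_two_pi]

lemma sol_period {B A ω : ℝ} (hω : 0 < ω) {φ : ℝ → ℝ} (h : Sol (ff B A ω) φ) (k : ℤ) :
    Sol (ff B A ω) (fun t => φ (t + 2 * Real.pi / ω) + k * (2 * Real.pi)) := by
  have := sol_shift h (2 * Real.pi / ω) k
  have e : (fun t => ff B A ω (t + 2 * Real.pi / ω)) = ff B A ω := by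
    funext t; exact ff_period hω t
  rw [e] at this
  exact this

lemma ff_half {B A ω : ℝ} (hω : 0 < ω) (t : ℝ) :
    ff B A ω (t + Real.pi / ω) = -(ff (-B) A ω t) := by
  unfold ff
  have : ω * (t + Real.pi / ω) = ω * t + Real.pi := by field_simp
  rw [this, Real.cos_add_pi]
  ring

lemma sol_reflect {B A ω : ℝ} (hω : 0 < ω) {φ : ℝ → ℝ} (h : Sol (ff B A ω) φ) :
    Sol (ff (-B) A ω) (fun t => -φ (t + Real.pi / ω)) := by
  intro t
  have h1 : HasDerivAt (fun t => φ (t + Real.pi / ω))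
      (-Real.sin (φ (t + Real.pi / ω)) + ff B A ω (t + Real.pi / ω)) t :=
    (h (t + Real.pi / ω)).comp_add_const t (Real.pi / ω)
  have h2 := h1.neg
  rw [ff_half hω] at h2
  have e : -(-Real.sin (φ (t + Real.pi / ω)) + -ff (-B) A ω t) =
      -Real.sin (-φ (t + Real.pi / ω)) + ff (-B) A ω t := by
    rw [Real.sin_neg]; ring
  rw [e] at h2
  exact h2

/-- all solutions with the same forcing stay at bounded distance -/
lemma bounded_diff {f φ ψ : ℝ → ℝ} (hφ : Sol f φ) (hψ : Sol f ψ) :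
    ∃ C : ℝ, ∀ t, |φ t - ψ t| ≤ C := by
  obtain ⟨k, hk⟩ := exists_nat_ge (|φ 0 - ψ 0| / (2 * Real.pi))
  have h2pi : (0 : ℝ) < 2 * Real.pi := by positivity
  rw [div_le_iff₀ h2pi] at hk
  refine ⟨k * (2 * Real.pi), fun t => ?_⟩
  have h1 := abs_le.mp hk
  rw [abs_le]
  have hψk := sol_add_const hψ (k : ℤ)
  have hφk := sol_add_const hφ (k : ℤ)
  have a1 := order_preserved hφ hψk (a := 0) (by push_cast; linarith [h1.2]) t
  have a2 := order_preserved hψ hφk (a := 0) (by push_cast; linarith [h1.1]) t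
  push_cast at a1 a2
  constructor <;> linarith

lemma tendsto_of_bounded_diff {φ ψ : ℝ → ℝ} {L C : ℝ}
    (h : Tendsto (fun t : ℝ => φ t / t) atTop (𝓝 L)) (hC : ∀ t, |φ t - ψ t| ≤ C) :
    Tendsto (fun t : ℝ => ψ t / t) atTop (𝓝 L) := by
  have h1 : Tendsto (fun t : ℝ => C / t) atTop (𝓝 0) := tendsto_const_nhds.div_atTop tendsto_id
  have h2 : Tendsto (fun t : ℝ => φ t / t - C / t) atTop (𝓝 (L - 0)) := h.sub h1
  have h3 : Tendsto (fun t : ℝ => φ t / t + C / t) atTop (𝓝 (L + 0)) := h.add h1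
  rw [sub_zero] at h2
  rw [add_zero] at h3
  apply tendsto_of_tendsto_of_tendsto_of_le_of_le' h2 h3
  · filter_upwards [eventually_gt_atTop 0] with t ht
    have := (abs_le.mp (hC t)).2
    rw [← sub_div]
    gcongr
    linarith
  · filter_upwards [eventually_gt_atTop 0] with t ht
    have := (abs_le.mp (hC t)).1
    rw [← add_div]
    gcongr
    linarith

lemma tendsto_all {f φ ψ : ℝ → ℝ} (hφ : Sol f φ) (hψ : Sol f ψ) {L : ℝ}
    (h : Tendsto (fun t : ℝ => φ t / t) atTop (𝓝 L)) :
    Tendsto (fun t : ℝ => ψ t / t) atTop (𝓝 L) := by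
  obtain ⟨C, hC⟩ := bounded_diff hφ hψ
  exact tendsto_of_bounded_diff h hC

/-- a continuous function increasing along the period is bounded below on `[0,∞)` -/
lemma bounded_below {h : ℝ → ℝ} (hc : Continuous h) {T : ℝ} (hT : 0 < T)
    (hinc : ∀ t, h t ≤ h (t + T)) : ∃ C, ∀ t, 0 ≤ t → C ≤ h t := by
  obtain ⟨x, _, hx⟩ := isCompact_Icc.exists_isMinOn (nonempty_Icc.mpr hT.le) hc.continuousOn
  refine ⟨h x, fun t ht => ?_⟩
  have hind : ∀ n : ℕ, ∀ s, h s ≤ h (s + n * T) := by
    intro n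
    induction n with
    | zero => intro s; simp
    | succ n ih =>
      intro s
      refine (ih s).trans ?_
      have := hinc (s + n * T)
      have e : s + n * T + T = s + (n + 1 : ℕ) * T := by push_cast; ring
      rwa [e] at this
  set n := ⌊t / T⌋₊ with hn
  have h1 : (n : ℝ) ≤ t / T := Nat.floor_le (div_nonneg ht hT.le)
  have h2 : t / T < n + 1 := Nat.lt_floor_add_one _
  rw [le_div_iff₀ hT] at h1
  rw [div_lt_iff₀ hT] at h2
  have h3 := hind n (t - n * T)
  rw [sub_add_cancel] at h3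
  refine le_trans ?_ h3
  apply hx
  constructor <;> linarith

/-- lower bound for the rotation number -/
lemma rot_ge {φ : ℝ → ℝ} {T c L : ℝ} (hT : 0 < T) (hinc : ∀ t, φ t + c ≤ φ (t + T))
    (h : Tendsto (fun t : ℝ => φ t / t) atTop (𝓝 L)) : c / T ≤ L := by
  have hind : ∀ n : ℕ, φ 0 + n * c ≤ φ (n * T) := by
    intro n
    induction n with
    | zero => simp
    | succ n ih =>
      have := hinc (n * T)
      have e : n * T + T = ((n + 1 : ℕ) : ℝ) * T := by push_cast; ring
      rw [e] at this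
      push_cast at *
      linarith
  have h1 : Tendsto (fun n : ℕ => (n : ℝ) * T) atTop atTop :=
    tendsto_natCast_atTop_atTop.atTop_mul_const hT
  have h2 : Tendsto (fun n : ℕ => φ (n * T) / (n * T)) atTop (𝓝 L) := h.comp h1
  have h3 : Tendsto (fun n : ℕ => φ 0 / (n * T) + c / T) atTop (𝓝 (0 + c / T)) :=
    (tendsto_const_nhds.div_atTop h1).add tendsto_const_nhds
  rw [zero_add] at h3
  apply le_of_tendsto_of_tendsto h3 h2
  filter_upwards [eventually_gt_atTop 0] with n hn
  have hn' : (0 : ℝ) < n := by exact_mod_cast hn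
  have := hind n
  have e : φ 0 / (n * T) + c / T = (φ 0 + n * c) / (n * T) := by
    field_simp
  rw [e]
  gcongr

/-- a solution of a smaller parameter which still advances by `2 π r` in a period -/
lemma inL_of_smaller {r : ℤ} {B B' A ω : ℝ} (hω : 0 < ω) (hB : B' ≤ B) (hL : InL r B A ω)
    {ψ : ℝ → ℝ} (hψ : Sol (ff B' A ω) ψ) {a : ℝ}
    (hinc : ψ a + r * (2 * Real.pi) ≤ ψ (a + 2 * Real.pi / ω)) : InL r B' A ω := by
  have hT : 0 < 2 * Real.pi / ω := by positivity
  refine ⟨ψ, hψ, ?_⟩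
  have hall : ∀ t, ψ t + r * (2 * Real.pi) ≤ ψ (t + 2 * Real.pi / ω) := by
    intro t
    have h1 := sol_period hω hψ (-r)
    have := order_preserved hψ h1 (a := a) (by push_cast; linarith) t
    push_cast at this
    linarith
  -- lower bound
  obtain ⟨C, hC⟩ := bounded_below (h := fun t => ψ t - r * ω * t)
    (hψ.continuous.sub (by fun_prop)) hT (by
      intro t
      have := hall t
      have e : (r : ℝ) * ω * (t + 2 * Real.pi / ω) = r * ω * t + r * (2 * Real.pi) := by
        field_simp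
      show ψ t - r * ω * t ≤ ψ (t + 2 * Real.pi / ω) - r * ω * (t + 2 * Real.pi / ω)
      rw [e]
      linarith)
  -- upper bound
  obtain ⟨φ, hφ, hlim⟩ := hL
  obtain ⟨χ, hχ, hχ0⟩ := exists_sol_ff B A ω (ψ 0)
  have hχlim := tendsto_all hφ hχ hlim
  have hup : ∀ t, 0 ≤ t → ψ t ≤ χ t := by
    intro t ht
    apply comp_le hψ hχ ht _ hχ0.ge
    intro s _
    unfold ff
    linarith
  have h1 : Tendsto (fun t : ℝ => C / t + r * ω) atTop (𝓝 (0 + r * ω)) :=
    (tendsto_const_nhds.div_atTop tendsto_id).add tendsto_const_nhds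
  rw [zero_add] at h1
  apply tendsto_of_tendsto_of_tendsto_of_le_of_le' h1 hχlim
  · filter_upwards [eventually_gt_atTop 0] with t ht
    have := hC t ht.le
    rw [le_div_iff₀ ht, add_mul, div_mul_cancel₀ _ ht.ne']
    linarith
  · filter_upwards [eventually_gt_atTop 0] with t ht
    have := hup t ht.le
    gcongr

/-- reflection of phase-lock areas -/
lemma inL_reflect {r : ℤ} {B A ω : ℝ} (hω : 0 < ω) (h : InL r B A ω) : InL (-r) (-B) A ω := by
  obtain ⟨φ, hφ, hlim⟩ := h
  refine ⟨_, sol_reflect hω hφ, ?_⟩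
  have h1 : Tendsto (fun t : ℝ => t + Real.pi / ω) atTop atTop :=
    tendsto_atTop_add_const_right _ _ tendsto_id
  have h2 := hlim.comp h1
  have h3 : Tendsto (fun t : ℝ => (t + Real.pi / ω) / t) atTop (𝓝 1) := by
    have : Tendsto (fun t : ℝ => 1 + (Real.pi / ω) / t) atTop (𝓝 (1 + 0)) :=
      tendsto_const_nhds.add (tendsto_const_nhds.div_atTop tendsto_id)
    rw [add_zero] at this
    apply this.congr'
    filter_upwards [eventually_gt_atTop 0] with t ht
    field_simp
  have h4 := (h2.mul h3).neg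
  have e : -((r : ℝ) * ω * 1) = ((-r : ℤ) : ℝ) * ω := by push_cast; ring
  rw [e] at h4
  apply h4.congr'
  filter_upwards [eventually_gt_atTop 0] with t ht
  have : t + Real.pi / ω ≠ 0 := by positivity
  simp only [Function.comp_apply]
  field_simp

lemma inL_reflect_iff {r : ℤ} {B A ω : ℝ} (hω : 0 < ω) :
    InL (-r) (-B) A ω ↔ InL r B A ω := by
  constructor
  · intro h
    have := inL_reflect hω h
    simpa using this
  · exact inL_reflect hω

/-- singleton fibre: upper half -/
lemma adj_upper {r : ℤ} {B A ω : ℝ} (hω : 0 < ω) (hL : InL r B A ω)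
    (hsing : ∀ B'', InL r B'' A ω → B'' = B) {φ : ℝ → ℝ} (hφ : Sol (ff B A ω) φ) :
    ∀ t, φ (t + 2 * Real.pi / ω) ≤ φ t + r * (2 * Real.pi) := by
  have hT : 0 < 2 * Real.pi / ω := by positivity
  set T := 2 * Real.pi / ω with hTdef
  by_contra hcon
  simp only [not_forall, not_le] at hcon
  obtain ⟨t0, ht0⟩ := hcon
  -- then the strict inequality holds at time 0
  have h0 : φ 0 + r * (2 * Real.pi) < φ T := by
    by_contra h0
    rw [not_lt] at h0
    have h1 := sol_period hω hφ (-r)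
    have h2 := order_preserved h1 hφ (a := 0) (by
      push_cast
      rw [zero_add, ← hTdef]
      linarith) t0
    push_cast at h2
    linarith
  -- choose a slightly smaller parameter
  set K := (T * Real.exp T) * Real.exp T with hK
  have hK0 : 0 < K := by positivity
  set η := (φ T - φ 0 - r * (2 * Real.pi)) / K with hη
  have hη0 : 0 < η := div_pos (by linarith) hK0
  obtain ⟨ψ, hψ, hψ0⟩ := exists_sol_ff (B - η) A ω (φ 0)
  have h5 := diff_le hψ hφ (a := 0) (b := T) hT.le hη0.le (by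
    intro t _
    unfold ff
    linarith) hψ0.ge
  have h6 : η * ((T - 0) * Real.exp (T - 0)) * Real.exp (T - 0) =
      φ T - φ 0 - r * (2 * Real.pi) := by
    have e : η * ((T - 0) * Real.exp (T - 0)) * Real.exp (T - 0) = η * K := by
      rw [hK, sub_zero]; ring
    rw [e, hη, div_mul_cancel₀ _ hK0.ne']
  rw [h6] at h5
  have h7 : InL r (B - η) A ω := by
    apply inL_of_smaller hω (by linarith) hL hψ (a := 0)
    rw [zero_add, hψ0]
    linarith
  have := hsing _ h7
  linarith

/-- singleton fibre: every solution advances by exactly `2 π r` in a period -/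
lemma adj_period {r : ℤ} {B A ω : ℝ} (hω : 0 < ω) (hL : InL r B A ω)
    (hsing : ∀ B'', InL r B'' A ω → B'' = B) {φ : ℝ → ℝ} (hφ : Sol (ff B A ω) φ) :
    ∀ t, φ (t + 2 * Real.pi / ω) = φ t + r * (2 * Real.pi) := by
  intro t
  apply le_antisymm (adj_upper hω hL hsing hφ t)
  have hL' := inL_reflect hω hL
  have hsing' : ∀ B'', InL (-r) B'' A ω → B'' = -B := by
    intro B'' h
    have h1 : InL r (-B'') A ω := by
      have := inL_reflect hω h
      simpa using this
    have := hsing _ h1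
    linarith
  have h1 := adj_upper hω hL' hsing' (sol_reflect hω hφ) (t - Real.pi / ω)
  have e1 : t - Real.pi / ω + 2 * Real.pi / ω + Real.pi / ω = t + 2 * Real.pi / ω := by ring
  have e2 : t - Real.pi / ω + Real.pi / ω = t := by ring
  simp only [e1, e2] at h1
  push_cast at h1
  linarith

end

end Pool.Agent.MPe3ae05
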