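import Pool.Agent.Lib.MP_e3ae05_an.Rotation

/-!
For `A ≥ 1` and `B ≥ ε` the solutions advance by many turns in one period, when `ω` is small,
uniformly in `A`.
-/

set_option autoImplicit false

open Filter Topology Set

namespace Pool.Agent.MPe3ae05

noncomputable section

/-- comparison of `B = ε` and `B = -ε` on the half period where the forcing is nonnegative -/
lemma half_gain {ε A ω : ℝ} (hε : 0 < ε) (hε1 : ε ≤ 1) (hA : 1 ≤ A) (hω : 0 < ω) {N : ℤ}
    (hsmall : ω * (6 * Real.pi * (N + 1)) ≤ Real.sqrt ε * ε ^ 2) {φ χ : ℝ → ℝ}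
    (hφ : Sol (ff ε A ω) φ) (hχ : Sol (ff (-ε) A ω) χ)
    (h0 : χ (-(Real.pi / (2 * ω))) ≤ φ (-(Real.pi / (2 * ω)))) :
    χ (Real.pi / (2 * ω)) + (N + 1) * (2 * Real.pi) ≤ φ (Real.pi / (2 * ω)) := by
  have hpi := Real.pi_pos
  have hpi3 := Real.pi_gt_three
  set T4 := Real.pi / (2 * ω) with hT4
  have hT40 : 0 < T4 := by positivity
  set t1 := Real.sqrt ε / ω with ht1
  have hsε : 0 < Real.sqrt ε := Real.sqrt_pos.mpr hε
  have hsε1 : Real.sqrt ε ≤ 1 := by
    calc Real.sqrt ε ≤ Real.sqrt 1 := Real.sqrt_le_sqrt hε1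
      _ = 1 := Real.sqrt_one
  have hsε2 : Real.sqrt ε ^ 2 = ε := Real.sq_sqrt hε.le
  have ht10 : 0 < t1 := by positivity
  have ht1T : t1 ≤ T4 := by
    rw [ht1, hT4, div_le_div_iff₀ hω (by positivity)]
    nlinarith
  have hωt1 : ω * t1 = Real.sqrt ε := by rw [ht1]; field_simp
  -- step 1
  have s1 : χ 0 ≤ φ 0 := by
    apply comp_le hχ hφ (a := -T4) (by linarith) _ h0
    intro t _
    unfold ff
    linarith
  -- step 2
  set c := 2 * ε / (A + ε + 1) with hc
  have hden : 0 < A + ε + 1 := by linarith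
  have hc0 : 0 < c := by positivity
  have hc1 : c ≤ 1 := by
    rw [hc, div_le_one hden]; linarith
  have hcden : c * (A + ε + 1) = 2 * ε := by rw [hc]; field_simp
  set φt : ℝ → ℝ := fun t => φ ((1 - c) * t) with hφt
  have hφts : Sol (fun t => (1 - c) * (-Real.sin (φt t) + ff ε A ω ((1 - c) * t)) +
      Real.sin (φt t)) φt := by
    intro t
    have h1 : HasDerivAt (fun t : ℝ => (1 - c) * t) ((1 - c) * 1) t :=
      (hasDerivAt_id t).const_mul (1 - c)
    have h2 := (hφ ((1 - c) * t)).comp t h1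
    have e : (-Real.sin (φ ((1 - c) * t)) + ff ε A ω ((1 - c) * t)) * ((1 - c) * 1) =
        -Real.sin (φt t) + ((1 - c) * (-Real.sin (φt t) + ff ε A ω ((1 - c) * t)) +
      Real.sin (φt t)) := by
      rw [hφt]; ring
    rw [e] at h2
    exact h2
  have s2 : χ t1 ≤ φt t1 := by
    apply comp_le hχ hφts ht10.le
    · intro t ht
      have hs1 := Real.neg_one_le_sin (φt t)
      have hs2 := Real.sin_le_one (φt t)
      set s := Real.sin (φt t)
      have hcos : Real.cos (ω * t) ≤ Real.cos (ω * ((1 - c) * t)) := by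
        apply Real.cos_le_cos_of_nonneg_of_le_pi
        · have := ht.1
          have : 0 ≤ 1 - c := by linarith
          positivity
        · have : ω * t ≤ ω * t1 := mul_le_mul_of_nonneg_left ht.2 hω.le
          rw [hωt1] at this
          linarith
        · apply mul_le_mul_of_nonneg_left _ hω.le
          nlinarith [ht.1]
      have hle : ff ε A ω t ≤ ff ε A ω ((1 - c) * t) := by
        unfold ff
        have := mul_le_mul_of_nonneg_left hcos (by linarith : 0 ≤ A)
        linarith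
      have hb : ff ε A ω t ≤ A + ε := by
        unfold ff
        have := mul_le_mul_of_nonneg_left (Real.cos_le_one (ω * t)) (by linarith : 0 ≤ A)
        linarith
      have he : ff (-ε) A ω t = ff ε A ω t - 2 * ε := by unfold ff; ring
      rw [he]
      have h3 : (1 - c) * (-s + ff ε A ω t) ≤ (1 - c) * (-s + ff ε A ω ((1 - c) * t)) := by
        apply mul_le_mul_of_nonneg_left _ (by linarith)
        linarith
      have h4 : c * (ff ε A ω t - s) ≤ 2 * ε := by
        rw [← hcden]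
        apply mul_le_mul_of_nonneg_left _ hc0.le
        linarith
      nlinarith
    · rw [hφt]
      simpa using s1
  -- step 3
  set κ := ε + A * (1 - ε / 2) - 1 with hκ
  have hκ0 : 0 < κ := by rw [hκ]; nlinarith
  have hder : ∀ t ∈ Icc 0 t1, κ ≤ -Real.sin (φ t) + ff ε A ω t := by
    intro t ht
    have hs2 := Real.sin_le_one (φ t)
    have hcos : 1 - ε / 2 ≤ Real.cos (ω * t) := by
      have h1 := Real.one_sub_sq_div_two_le_cos (x := ω * t)
      have h2 : (ω * t) ^ 2 ≤ ε := by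
        have h3 : ω * t ≤ Real.sqrt ε := by
          have : ω * t ≤ ω * t1 := mul_le_mul_of_nonneg_left ht.2 hω.le
          rwa [hωt1] at this
        have h4 : 0 ≤ ω * t := mul_nonneg hω.le ht.1
        calc (ω * t) ^ 2 ≤ Real.sqrt ε ^ 2 := pow_le_pow_left₀ h4 h3 2
          _ = ε := hsε2
      linarith
    unfold ff
    have := mul_le_mul_of_nonneg_left hcos (by linarith : 0 ≤ A)
    rw [hκ]
    linarith
  have s3 : φt t1 + κ * (c * t1) ≤ φ t1 := by
    have hmono : MonotoneOn (fun t => φ t - κ * t) (Icc 0 t1) := by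
      apply monotoneOn_of_deriv_nonneg (convex_Icc 0 t1)
      · exact (hφ.continuous.sub (by fun_prop)).continuousOn
      · intro t _
        exact ((hφ t).differentiableAt.sub (by fun_prop)).differentiableWithinAt
      · intro t ht
        have hd : HasDerivAt (fun t => φ t - κ * t)
            ((-Real.sin (φ t) + ff ε A ω t) - κ * 1) t :=
          (hφ t).sub ((hasDerivAt_id t).const_mul κ)
        rw [hd.deriv]
        have := hder t (interior_subset ht)
        linarith
    have h1 := hmono (a := (1 - c) * t1) (b := t1)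
      ⟨mul_nonneg (by linarith) ht10.le, by nlinarith⟩ (right_mem_Icc.mpr ht10.le) (by nlinarith)
    have h2 : φt t1 = φ ((1 - c) * t1) := rfl
    rw [h2]
    simp only at h1
    nlinarith
  -- step 4
  have s4 : ε ^ 2 / 3 ≤ κ * c := by
    rw [hc, ← mul_div_assoc, div_le_div_iff₀ (by norm_num) hden, hκ]
    nlinarith [mul_nonneg hε.le (sub_nonneg.mpr hA), mul_nonneg (sub_nonneg.mpr hε1)
      (sub_nonneg.mpr hA), mul_pos hε hε, mul_nonneg (mul_nonneg hε.le hε.le)
      (sub_nonneg.mpr hA), mul_nonneg (mul_nonneg hε.le (sub_nonneg.mpr hε1))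
      (sub_nonneg.mpr hA), mul_nonneg (mul_nonneg hε.le hε.le) (sub_nonneg.mpr hε1)]
  -- step 5
  have s5 : χ t1 + (N + 1) * (2 * Real.pi) ≤ φ t1 := by
    have h1 : (N + 1) * (2 * Real.pi) ≤ t1 * (ε ^ 2 / 3) := by
      rw [ht1]
      rw [div_mul_eq_mul_div, le_div_iff₀ hω]
      linarith
    have h2 : t1 * (ε ^ 2 / 3) ≤ t1 * (κ * c) := mul_le_mul_of_nonneg_left s4 ht10.le
    linarith
  -- step 6
  have hχN := sol_add_const hχ (N + 1)
  have s6 := comp_le hχN hφ ht1T (by
    intro t _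
    unfold ff
    linarith) (by push_cast; linarith)
  push_cast at s6
  exact s6

/-- one full period for `B = ε` -/
lemma full_gain {ε A ω : ℝ} (hε : 0 < ε) (hε1 : ε ≤ 1) (hA : 1 ≤ A) (hω : 0 < ω) {N : ℤ}
    (hsmall : ω * (6 * Real.pi * (N + 1)) ≤ Real.sqrt ε * ε ^ 2) {φ : ℝ → ℝ}
    (hφ : Sol (ff ε A ω) φ) (t : ℝ) :
    φ t + N * (2 * Real.pi) ≤ φ (t + 2 * Real.pi / ω) := by
  have hpi := Real.pi_pos
  set T4 := Real.pi / (2 * ω) with hT4
  have hχ := sol_reflect hω hφ
  set k : ℤ := ⌊(φ (-T4) - -φ (-T4 + Real.pi / ω)) / (2 * Real.pi)⌋ with hk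
  have hk1 : (k : ℝ) ≤ (φ (-T4) - -φ (-T4 + Real.pi / ω)) / (2 * Real.pi) := Int.floor_le _
  have hk2 : (φ (-T4) - -φ (-T4 + Real.pi / ω)) / (2 * Real.pi) < k + 1 :=
    Int.lt_floor_add_one _
  rw [le_div_iff₀ (by positivity)] at hk1
  rw [div_lt_iff₀ (by positivity)] at hk2
  have hχk := sol_add_const hχ k
  have h1 := half_gain hε hε1 hA hω hsmall hφ hχk (by
    show -φ (-T4 + Real.pi / ω) + k * (2 * Real.pi) ≤ φ (-T4)
    linarith)
  rw [← hT4] at h1
  have e1 : -T4 + Real.pi / ω = T4 := by rw [hT4]; field_simp; ring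
  have e2 : T4 + Real.pi / ω = -T4 + 2 * Real.pi / ω := by rw [hT4]; field_simp; ring
  rw [e1] at hk1 hk2
  simp only [e2] at h1
  have h2 : φ (-T4) + N * (2 * Real.pi) ≤ φ (-T4 + 2 * Real.pi / ω) := by linarith
  have h3 := sol_period hω hφ (-N)
  have h4 := order_preserved hφ h3 (a := -T4) (by push_cast; linarith) t
  push_cast at h4
  linarith

/-- for `B ≥ ε` and `A ≥ 1` the point is not in `L_r` when `ω` is small -/
lemma not_inL {ε A B ω : ℝ} (hε : 0 < ε) (hε1 : ε ≤ 1) (hA : 1 ≤ A) (hω : 0 < ω) (hB : ε ≤ B)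
    {r N : ℤ} (hrN : r < N)
    (hsmall : ω * (6 * Real.pi * (N + 1)) ≤ Real.sqrt ε * ε ^ 2) : ¬ InL r B A ω := by
  rintro ⟨φ, hφ, hlim⟩
  have hT : 0 < 2 * Real.pi / ω := by positivity
  obtain ⟨ψ, hψ, hψ0⟩ := exists_sol_ff ε A ω (φ 0)
  have h1 := full_gain hε hε1 hA hω hsmall hψ 0
  rw [zero_add] at h1
  have h2 : ψ (2 * Real.pi / ω) ≤ φ (2 * Real.pi / ω) := by
    apply comp_le hψ hφ hT.le _ hψ0.le
    intro t _
    unfold ff
    linarith
  have hall : ∀ t, φ t + N * (2 * Real.pi) ≤ φ (t + 2 * Real.pi / ω) := by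
    intro t
    have h3 := sol_period hω hφ (-N)
    have h4 := order_preserved hφ h3 (a := 0) (by
      push_cast
      rw [zero_add]
      linarith) t
    push_cast at h4
    linarith
  have h5 := rot_ge hT hall hlim
  have e : (N : ℝ) * (2 * Real.pi) / (2 * Real.pi / ω) = N * ω := by
    have := Real.pi_pos
    field_simp
  rw [e] at h5
  have h6 : (N : ℝ) ≤ r := le_of_mul_le_mul_right h5 hω
  have h7 : (r : ℝ) < N := by exact_mod_cast hrN
  linarith

end

end Pool.Agent.MPe3ae05
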